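import Pool.Agent.H1.HopfA

open Pool.Agent.H1.Hopf

theorem Pool.Agent.Results.MP_a60953_an.Disproof.result (k : ℕ) :
    ∃ u v : Pt (k + 1) → ℝ,
      ContDiff ℝ (⊤ : ℕ∞) u ∧ ContDiff ℝ (⊤ : ℕ∞) v ∧
      (∀ p ∈ Omega (k + 1), v p ≤ u p) ∧
      (∀ p ∈ Omega (k + 1), 0 < u p ∧ 0 < v p ∧ 0 < dt u p) ∧
      (∀ y, ‖y‖ < 1 → u (0, y) = 0) ∧
      (∀ t s y, 0 < t → t ≤ s → s < 1 → ‖y‖ < 1 → u (t, y) = v (s, y) →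
        lap u (t, y) ≤ lap v (s, y)) ∧
      dt u (0, 0) = 0 ∧
      (∀ p ∈ Omega (k + 1), u p ≠ v p) := by
  obtain ⟨u, v, hu, hv, h1, h2, h3, h4, -, -⟩ := main k
  exact ⟨u, v, hu, hv, fun p hp => (h1 p hp).1.le, fun p hp => (h1 p hp).2, fun y _ => h2 y,
    fun t s y ht hts _ _ h => h3 t s y ht hts h, h4, fun p hp => (h1 p hp).1.ne'⟩
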